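import Pool.Agent.helper26.T5.SpecB

/-! T5 (MP_16912e_nt), row LP: the number of points of content one. -/

set_option autoImplicit false

namespace Pool.Agent.helper26.T5

open NumberField Pool.Agent.helper3.FT Pool.Agent.helper47.RA Pool.Agent.T5

theorem LP_dvd {K : Type} [Field K] [NumberField K] (a : Ideal (𝓞 K)) (α : 𝓞 K) (h : α ∈ a ^ 2) :
    Ideal.absNorm a ^ 2 ∣ nn α := by
  have h1 : a ^ 2 ∣ Ideal.span {α} := Ideal.dvd_iff_le.2 ((Ideal.span_singleton_le_iff_mem (I := a ^ 2)).2 h)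
  have h2 := map_dvd Ideal.absNorm h1
  rw [map_pow] at h2
  exact h2

/-- a denominator of content one is a unit -/
theorem LP_unit {K : Type} [Field K] [NumberField K] (a : Ideal (𝓞 K)) (α β : 𝓞 K) (u v : ℤ) (hα : α ∈ a ^ 2)
    (hβ : β ∈ a ^ 2) (hc : Cont1 a α) (h : (u : 𝓞 K) * β = v * α) (huv : IsCoprime u v) : u.natAbs = 1 := by
  by_contra hne
  obtain ⟨p, hp, hpu⟩ := Nat.exists_prime_and_dvd hne
  obtain ⟨i, j, hij⟩ := huv
  obtain ⟨u', hu'⟩ := Int.natCast_dvd.2 hpu
  apply hc p hp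
  rw [Ideal.dvd_iff_le, Ideal.span_singleton_le_iff_mem]
  have e : α = (p : 𝓞 K) * ((i * u' : ℤ) * α + (j * u' : ℤ) * β) := by
    have e1 : ((i * u + j * v : ℤ) : 𝓞 K) = 1 := by
      rw [hij, Int.cast_one]
    push_cast at e1
    have e2 : (u : 𝓞 K) = p * u' := by
      rw [hu']
      push_cast
      rfl
    push_cast
    calc α = (i * u + j * v) * α := by rw [e1, one_mul]
      _ = i * u * α + j * (v * α) := by ring
      _ = i * u * α + j * (u * β) := by rw [h]
      _ = _ := by rw [e2]; ring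
  rw [e]
  exact Ideal.mul_mem_mul (Ideal.mem_span_singleton_self _)
    (add_mem (Ideal.mul_mem_left _ _ hα) (Ideal.mul_mem_left _ _ hβ))

theorem lP (hE : LEMB) (hR : LPR) (hM : LRM) : LP := by
  intro K _ _ Q a T f r hD ha hT hf hco hsq h2 hram S hS
  classical
  obtain ⟨E, E1, E2, E3, E4, E5⟩ := hE K Q hD
  have hs : 0 < √|(Q.D : ℝ)| := by
    apply Real.sqrt_pos.2
    apply abs_pos.2
    exact_mod_cast hD.ne
  have hZ : 0 < Ideal.absNorm a := Nat.pos_of_ne_zero fun h => ha (Ideal.absNorm_eq_zero_iff.1 h)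
  have hZR : (0 : ℝ) < Ideal.absNorm a := by exact_mod_cast hZ
  have hr : 0 < r := Nat.pos_of_ne_zero hsq.ne_zero
  have hrR : (0 : ℝ) < r := by exact_mod_cast hr
  have hfR : (0 : ℝ) < f := by exact_mod_cast hf
  have hnn : ∀ x : 𝓞 K, x ≠ 0 → 0 < nn x := by
    intro x hx
    refine Nat.pos_of_ne_zero fun h => hx ?_
    exact Ideal.span_singleton_eq_bot.1 (Ideal.absNorm_eq_zero_iff.1 h)
  have hinj : Function.Injective E := by
    intro x y hxy
    by_contra hne
    have h3 : x - y ≠ 0 := sub_ne_zero.2 hne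
    have h4 : E (x - y) = 0 := by rw [map_sub, hxy, sub_self]
    have h5 : (nn (x - y) : ℝ) = 0 := by
      rw [E4, ← E1, h4, norm_zero]
      norm_num
    have h6 := hnn _ h3
    have h7 : nn (x - y) = 0 := by exact_mod_cast h5
    omega
  have hcard : (S.image E).card = S.card := Finset.card_image_of_injective _ hinj
  have hmain := hR (S.image E) (Ideal.absNorm a * √T) (f * r * (Ideal.absNorm a : ℝ) ^ 2 * (√|(Q.D : ℝ)| / 2))
    (by positivity) ?_ ?_
  · rw [hcard] at hmain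
    refine hmain.trans (le_of_eq ?_)
    rw [mul_pow, Real.sq_sqrt hT.le]
    field_simp
    ring
  · intro z hz
    rw [Finset.mem_image] at hz
    obtain ⟨α, hα, rfl⟩ := hz
    obtain ⟨⟨g1, g2, g3⟩, g4, g5, g6⟩ := hS α hα
    constructor
    · rw [E1]
      apply abs_le_of_sq_le_sq' _ (by positivity) |>.2
      rw [mul_pow, Real.sq_sqrt hT.le]
      exact g3
    · rw [E2]
      have : (0 : ℝ) < Q.Y α := by exact_mod_cast g2
      positivity
  · intro z hz z' hz' hne
    rw [Finset.mem_image] at hz hz'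
    obtain ⟨α, hα, rfl⟩ := hz
    obtain ⟨β, hβ, rfl⟩ := hz'
    have hαβ : α ≠ β := fun h => hne (by rw [h])
    obtain ⟨⟨g1, g2, g3⟩, g4, g5, g6⟩ := hS α hα
    obtain ⟨⟨k1, k2, k3⟩, k4, k5, k6⟩ := hS β hβ
    rw [← E3, ← map_mul, E2, abs_mul, abs_of_pos (half_pos hs)]
    refine mul_le_mul_of_nonneg_right ?_ (half_pos hs).le
    have hα0 : α ≠ 0 := by
      rintro rfl
      have : Q.Y (0 : 𝓞 K) = 0 := by
        have := Q.Y_int 0
        simpa using this
      omega
    -- divisibility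
    have d1 : ((r * Ideal.absNorm a ^ 2 : ℕ) : ℤ) ∣ Q.Y (Q.cj α * β) :=
      hM K Q a r α β hD ha hsq h2 hram g1 k1 g6 k6
    have d2 : (f : ℤ) ∣ Q.Y (Q.cj α * β) := Q.h96_Y_mul _ (Q.h96_Y_cj _ g5) k5
    have hcop : Nat.Coprime f (r * Ideal.absNorm a ^ 2) := by
      rw [Nat.coprime_mul_iff_right] at hco ⊢
      exact ⟨hco.1, hco.2.pow_right 2⟩
    have d3 : (f : ℤ) * ((r * Ideal.absNorm a ^ 2 : ℕ) : ℤ) ∣ Q.Y (Q.cj α * β) :=
      (Nat.isCoprime_iff_coprime.2 hcop).mul_dvd d2 d1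
    have hy : Q.Y (Q.cj α * β) ≠ 0 := by
      intro h0
      obtain ⟨c, hc⟩ := (Q.Y_eq_zero_iff _).1 h0
      have hN : ((nn α : ℤ) : 𝓞 K) * β = c * α := by
        have e1 := E5 α
        calc ((nn α : ℤ) : 𝓞 K) * β = (nn α : 𝓞 K) * β := by push_cast; rfl
          _ = α * Q.cj α * β := by rw [e1]
          _ = (Q.cj α * β) * α := by ring
          _ = c * α := by rw [hc]
      have hN0 : (nn α : ℤ) ≠ 0 := by
        have := hnn α hα0
        omega
      have hg : 0 < Int.gcd (nn α : ℤ) c := Int.gcd_pos_of_ne_zero_left _ hN0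
      obtain ⟨u, v, huv, hu, hv⟩ := Int.exists_gcd_one hg
      have hg0 : ((Int.gcd (nn α : ℤ) c : ℤ) : 𝓞 K) ≠ 0 := by
        exact_mod_cast hg.ne'
      have huv' : (u : 𝓞 K) * β = v * α := by
        apply mul_left_cancel₀ hg0
        have e2 : (((nn α : ℤ)) : 𝓞 K) = (u : 𝓞 K) * ((Int.gcd (nn α : ℤ) c : ℤ) : 𝓞 K) := by
          conv_lhs => rw [hu]
          push_cast
          rfl
        have e3 : (c : 𝓞 K) = (v : 𝓞 K) * ((Int.gcd (nn α : ℤ) c : ℤ) : 𝓞 K) := by
          conv_lhs => rw [hv]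
          push_cast
          rfl
        rw [e2] at hN
        generalize ((Int.gcd (nn α : ℤ) c : ℤ) : 𝓞 K) = G at *
        rw [e3] at hN
        linear_combination hN
      have hcop2 : IsCoprime u v := Int.isCoprime_iff_gcd_eq_one.2 huv
      have u1 := LP_unit a α β u v g1 k1 g4 huv' hcop2
      have v1 := LP_unit a β α v u k1 g1 k4 huv'.symm hcop2.symm
      have hYe : u * Q.Y β = v * Q.Y α := by
        have := congrArg Q.Y huv'
        rwa [Q.Y_int_mul, Q.Y_int_mul] at this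
      rcases Int.natAbs_eq_iff.1 u1 with hu1 | hu1 <;> rcases Int.natAbs_eq_iff.1 v1 with hv1 | hv1
      · apply hαβ
        rw [hu1, hv1] at huv'
        push_cast at huv'
        rw [one_mul, one_mul] at huv'
        exact huv'.symm
      · rw [hu1, hv1] at hYe
        push_cast at hYe
        omega
      · rw [hu1, hv1] at hYe
        push_cast at hYe
        omega
      · apply hαβ
        rw [hu1, hv1] at huv'
        push_cast at huv'
        rw [neg_mul, neg_mul, one_mul, one_mul] at huv'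
        exact (neg_injective huv').symm
    have h9 := Int.le_of_dvd (abs_pos.2 hy) ((dvd_abs _ _).2 d3)
    have h10 : (((f : ℤ) * ((r * Ideal.absNorm a ^ 2 : ℕ) : ℤ) : ℤ) : ℝ) ≤ ((|Q.Y (Q.cj α * β)| : ℤ) : ℝ) := by
      exact_mod_cast h9
    push_cast at h10
    linarith

end Pool.Agent.helper26.T5
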