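import Pool.Agent.helper26.T5.SpecB

/-! T5 (MP_16912e_nt), row LT4: the points attached to tuples of conductor prime to `Z Λ`. -/

set_option autoImplicit false

namespace Pool.Agent.helper26.T5

open NumberField Pool.Agent.helper3.FT Pool.Agent.helper47.RA Pool.Agent.T5

theorem LT4_dvd {K : Type} [Field K] [NumberField K] (a : Ideal (𝓞 K)) (α : 𝓞 K) (h : α ∈ a ^ 2) :
    Ideal.absNorm a ^ 2 ∣ nn α := by
  have h1 : a ^ 2 ∣ Ideal.span {α} := Ideal.dvd_iff_le.2 ((Ideal.span_singleton_le_iff_mem (I := a ^ 2)).2 h)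
  have h2 := map_dvd Ideal.absNorm h1
  rw [map_pow] at h2
  exact h2

theorem lt4 (h : LP) : LT4 := by
  intro K _ _ Q a y F₀ T hD ha hy hF hT S hS
  classical
  have hs : 0 < √|(Q.D : ℝ)| := by
    apply Real.sqrt_pos.2
    apply abs_pos.2
    exact_mod_cast hD.ne
  have hmaps : ∀ v ∈ S, v.1 ∈ y.natAbs.divisors := by
    intro v hv
    obtain ⟨h1, h2, h3, h4, h5⟩ := hS v hv
    rw [Nat.mem_divisors]
    refine ⟨?_, Int.natAbs_ne_zero.2 hy⟩
    have := Int.natAbs_dvd_natAbs.2 h4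
    simpa using this
  have hfib : ∀ f ∈ y.natAbs.divisors, (((S.filter (fun v => v.1 = f)).card : ℕ) : ℝ) ≤
      1 + 2 * Real.pi * T / (F₀ * √|(Q.D : ℝ)|) := by
    intro f _
    have hpos : 0 ≤ 2 * Real.pi * T / (F₀ * √|(Q.D : ℝ)|) := by positivity
    rcases (S.filter (fun v => v.1 = f)).eq_empty_or_nonempty with he | ⟨v0, hv0⟩
    · rw [he, Finset.card_empty, Nat.cast_zero]
      linarith
    · rw [Finset.mem_filter] at hv0
      obtain ⟨h1, h2, h3, h4, h5, h6, h7⟩ := hS v0 hv0.1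
      rw [hv0.2] at h1 h2 h3
      have hinj : Set.InjOn (Prod.snd : ℕ × 𝓞 K → 𝓞 K) (S.filter (fun v => v.1 = f) : Set (ℕ × 𝓞 K)) := by
        intro v hv w hw hvw
        rw [Finset.mem_coe, Finset.mem_filter] at hv hw
        exact Prod.ext (hv.2.trans hw.2.symm) hvw
      rw [← Finset.card_image_of_injOn hinj]
      have h8 := h K Q a T f 1 hD ha hT h1 (by rwa [one_mul]) squarefree_one (by norm_num)
        (fun p hp hp1 => absurd (Nat.dvd_one.1 hp1) hp.one_lt.ne') ((S.filter (fun v => v.1 = f)).image Prod.snd) ?_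
      · refine h8.trans ?_
        have h9 : F₀ * √|(Q.D : ℝ)| ≤ f * (1 : ℕ) * √|(Q.D : ℝ)| := by
          rw [Nat.cast_one, mul_one]
          exact mul_le_mul_of_nonneg_right h2.le hs.le
        have h10 : 2 * Real.pi * T / (f * (1 : ℕ) * √|(Q.D : ℝ)|) ≤ 2 * Real.pi * T / (F₀ * √|(Q.D : ℝ)|) :=
          div_le_div_of_nonneg_left (by positivity) (by positivity) h9
        linarith
      · intro α hα
        rw [Finset.mem_image] at hα
        obtain ⟨v, hv, rfl⟩ := hα
        rw [Finset.mem_filter] at hv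
        obtain ⟨g1, g2, g3, g4, g5, g6, g7⟩ := hS v hv.1
        rw [hv.2] at g7
        refine ⟨g5, g6, g7, ?_⟩
        rw [one_mul]
        exact LT4_dvd a v.2 g5.1
  rw [Finset.card_eq_sum_card_fiberwise hmaps, Nat.cast_sum]
  refine (Finset.sum_le_sum hfib).trans ?_
  rw [Finset.sum_const, nsmul_eq_mul]

end Pool.Agent.helper26.T5
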