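import Pool.Agent.helper94.T5.SpecV

/-! T5 (MP_16912e_nt), row VBX: boxes approximating the central region. -/

set_option autoImplicit false

namespace Pool.Agent.T5V

open MeasureTheory Set
open scoped ENNReal

theorem VBX_Iv_nonneg (κ : ℝ) (h0 : 0 < κ) (h1 : κ < 1 / 2) : 0 ≤ Iv κ := by
  unfold Iv
  have hs : √2 ≤ 3 / 2 := Real.sqrt_le_iff.2 ⟨by norm_num, by norm_num⟩
  have hl : Real.log 2 ≤ 1 := by
    have := Real.log_two_lt_d9
    linarith
  have hl0 : 0 ≤ Real.log 2 := Real.log_nonneg (by norm_num)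
  have h2 : 0 ≤ 2 - √2 - κ * Real.log 2 := by nlinarith
  positivity

theorem VBX_bounded (hVBD : VBD_stmt) (κ : ℝ) (h0 : 0 < κ) (h1 : κ < 1 / 2) : Bornology.IsBounded (CenR κ) := by
  refine (Metric.isBounded_closedBall (x := (0 : ℝ × ℝ × ℝ × ℝ × ℝ)) (r := 16 / κ)).subset ?_
  intro x hx
  obtain ⟨a1, a2, a3, a4, a5, a6⟩ := hVBD κ h0 h1 x hx
  have hκ2 : 0 < κ ^ 2 := by positivity
  have h16 : 16 ≤ 16 / κ := by
    rw [le_div_iff₀ h0]
    linarith
  have h8 : 8 / κ ≤ 16 / κ := by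
    apply div_le_div_of_nonneg_right _ h0.le
    norm_num
  have hx1 : 1 / 2 < x.1 := hx.1
  have hx1' : x.1 ≤ 1 := hx.2.1
  rw [mem_closedBall_zero_iff, Prod.norm_def, Prod.norm_def, Prod.norm_def, Prod.norm_def]
  simp only [Real.norm_eq_abs]
  refine max_le ?_ (max_le ?_ (max_le ?_ (max_le ?_ ?_)))
  · rw [abs_le]
    constructor <;> linarith
  · rw [abs_le]
    constructor <;> linarith
  · rw [abs_le]
    constructor <;> linarith
  · exact a5.trans h8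
  · exact a6.trans h16

theorem VBX (hVBD : VBD_stmt) (hVVL : VVL_stmt) (hVFR : VFR_stmt) (hVMU : VMU_stmt) (hVJB : VJB_stmt) : VBX_stmt := by
  intro κ η h0 h1 hη
  obtain ⟨hm, hv⟩ := hVVL κ h0 h1
  have hc0 : 0 < κ ^ 2 := by positivity
  obtain ⟨c, r, b, I, hc, hok, hdis, hcov, hin, hsum⟩ := hVJB (CenR κ) (κ ^ 2) hc0 hm (VBX_bounded hVBD κ h0 h1)
    (hVFR κ h0 h1) (fun x hx => by
      obtain ⟨a1, a2, a3, a4, a5, a6⟩ := hVBD κ h0 h1 x hx
      have hx1 : 1 / 2 < x.1 := hx.1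
      refine ⟨?_, a1, a3⟩
      nlinarith) η hη
  have hmu : ∀ i, 0 ≤ (b i).mu := fun i => (hVMU c (b i) hc (hok i)).1
  have hms : ∀ i, MeasurableSet (b i).set := fun i => (hVMU c (b i) hc (hok i)).2.1
  have hint : ∀ i, ∫⁻ x in (b i).set, ENNReal.ofReal (1 / (x.2.1 ^ 3 * x.2.2.1)) = ENNReal.ofReal (b i).mu :=
    fun i => (hVMU c (b i) hc (hok i)).2.2
  have hU : ∀ J : Finset (Fin r), ∫⁻ x in ⋃ i ∈ J, (b i).set, ENNReal.ofReal (1 / (x.2.1 ^ 3 * x.2.2.1)) =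
      ENNReal.ofReal (∑ i ∈ J, (b i).mu) := by
    intro J
    rw [lintegral_biUnion_finset (fun i _ j _ hij => hdis i j hij) (fun i _ => hms i)]
    rw [ENNReal.ofReal_sum_of_nonneg (fun i _ => hmu i)]
    exact Finset.sum_congr rfl fun i _ => hint i
  have hIv := VBX_Iv_nonneg κ h0 h1
  have e1 : ∑ i ∈ I, (b i).mu ≤ Iv κ := by
    rw [← ENNReal.ofReal_le_ofReal_iff hIv, ← hU I, ← hv]
    exact lintegral_mono_set (iUnion₂_subset hin)
  have e2 : Iv κ ≤ ∑ i, (b i).mu := by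
    rw [← ENNReal.ofReal_le_ofReal_iff (Finset.sum_nonneg fun i _ => hmu i), ← hU Finset.univ, ← hv]
    refine lintegral_mono_set (hcov.trans ?_)
    exact iUnion_subset fun i => subset_biUnion_of_mem (u := fun i => (b i).set) (Finset.mem_coe.2 (Finset.mem_univ i))
  have e3 : ∑ i, (b i).mu = ∑ i ∈ I, (b i).mu + ∑ i ∈ Iᶜ, (b i).mu := (Finset.sum_add_sum_compl I _).symm
  exact ⟨c, r, b, I, hc, hok, hdis, hcov, hin, by linarith, by linarith⟩

end Pool.Agent.T5V
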