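import Pool.Agent.helper94.T5.SpecV

/-! T5 (MP_16912e_nt), row VCV: the change of variables. -/

set_option autoImplicit false

namespace Pool.Agent.T5V

open MeasureTheory Set
open scoped ENNReal

theorem VCV_rot3 (K : ℝ → ℝ → ℝ → ℝ≥0∞) (hK : Measurable (fun x : ℝ × ℝ × ℝ => K x.1 x.2.1 x.2.2))
    (μ₁ μ₂ μ₃ : Measure ℝ) [SFinite μ₁] [SFinite μ₂] [SFinite μ₃] :
    ∫⁻ x, ∫⁻ y, ∫⁻ z, K x y z ∂μ₃ ∂μ₂ ∂μ₁ = ∫⁻ y, ∫⁻ z, ∫⁻ x, K x y z ∂μ₁ ∂μ₃ ∂μ₂ := by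
  have h1 : Measurable (fun q : (ℝ × ℝ) × ℝ => K q.1.1 q.1.2 q.2) :=
    hK.comp (g := fun x : ℝ × ℝ × ℝ => K x.1 x.2.1 x.2.2) (f := fun q : (ℝ × ℝ) × ℝ => (q.1.1, q.1.2, q.2))
      (by fun_prop)
  have h2 : Measurable (fun q : ℝ × ℝ => ∫⁻ z, K q.1 q.2 z ∂μ₃) := h1.lintegral_prod_right'
  have e1 : ∫⁻ x, ∫⁻ y, ∫⁻ z, K x y z ∂μ₃ ∂μ₂ ∂μ₁ = ∫⁻ y, ∫⁻ x, ∫⁻ z, K x y z ∂μ₃ ∂μ₁ ∂μ₂ :=
    lintegral_lintegral_swap h2.aemeasurable
  rw [e1]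
  refine lintegral_congr fun y => ?_
  have h3 : Measurable (fun q : ℝ × ℝ => K q.1 y q.2) :=
    hK.comp (g := fun x : ℝ × ℝ × ℝ => K x.1 x.2.1 x.2.2) (f := fun q : ℝ × ℝ => (q.1, y, q.2)) (by fun_prop)
  exact lintegral_lintegral_swap h3.aemeasurable

theorem VCV_rot4 (H : ℝ → ℝ → ℝ → ℝ → ℝ≥0∞)
    (hH : Measurable (fun x : ℝ × ℝ × ℝ × ℝ => H x.1 x.2.1 x.2.2.1 x.2.2.2))
    (μ₁ μ₂ μ₃ μ₄ : Measure ℝ) [SFinite μ₁] [SFinite μ₂] [SFinite μ₃] [SFinite μ₄] :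
    ∫⁻ n, ∫⁻ k, ∫⁻ m, ∫⁻ l, H l n k m ∂μ₁ ∂μ₄ ∂μ₃ ∂μ₂ = ∫⁻ l, ∫⁻ n, ∫⁻ k, ∫⁻ m, H l n k m ∂μ₄ ∂μ₃ ∂μ₂ ∂μ₁ := by
  have h1 : Measurable (fun q : ((ℝ × ℝ) × ℝ) × ℝ => H q.1.1.1 q.1.1.2 q.1.2 q.2) :=
    hH.comp (g := fun x : ℝ × ℝ × ℝ × ℝ => H x.1 x.2.1 x.2.2.1 x.2.2.2)
      (f := fun q : ((ℝ × ℝ) × ℝ) × ℝ => (q.1.1.1, q.1.1.2, q.1.2, q.2)) (by fun_prop)
  have h2 : Measurable (fun q : (ℝ × ℝ) × ℝ => ∫⁻ m, H q.1.1 q.1.2 q.2 m ∂μ₄) := h1.lintegral_prod_right'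
  have h3 : Measurable (fun q : ℝ × ℝ => ∫⁻ k, ∫⁻ m, H q.1 q.2 k m ∂μ₄ ∂μ₃) := h2.lintegral_prod_right'
  have e1 : ∫⁻ l, ∫⁻ n, ∫⁻ k, ∫⁻ m, H l n k m ∂μ₄ ∂μ₃ ∂μ₂ ∂μ₁ = ∫⁻ n, ∫⁻ l, ∫⁻ k, ∫⁻ m, H l n k m ∂μ₄ ∂μ₃ ∂μ₁ ∂μ₂ :=
    lintegral_lintegral_swap h3.aemeasurable
  rw [e1]
  refine lintegral_congr fun n => ?_
  exact (VCV_rot3 (fun l k m => H l n k m) (hH.comp (g := fun x : ℝ × ℝ × ℝ × ℝ => H x.1 x.2.1 x.2.2.1 x.2.2.2)
      (f := fun q : ℝ × ℝ × ℝ => (q.1, n, q.2.1, q.2.2)) (by fun_prop)) μ₁ μ₃ μ₄).symm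

/-- the integrand -/
noncomputable def VCV_F (G : ℝ → ℝ → ℝ → ℝ → ℝ → ℝ≥0∞) (Z n k m g : ℝ) : ℝ≥0∞ :=
  if 0 < La Z n k m g ∧ 0 < Wd Z n k m g then
    G Z (La Z n k m g) (Wd Z n k m g) (S1 Z n k m g) (S2 Z n k m g) else 0

theorem VCV_F_meas (G : ℝ → ℝ → ℝ → ℝ → ℝ → ℝ≥0∞)
    (hG : Measurable (fun x : ℝ × ℝ × ℝ × ℝ × ℝ => G x.1 x.2.1 x.2.2.1 x.2.2.2.1 x.2.2.2.2)) :
    Measurable (fun x : ℝ × ℝ × ℝ × ℝ × ℝ => VCV_F G x.1 x.2.1 x.2.2.1 x.2.2.2.1 x.2.2.2.2) := by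
  have h1 : Measurable (fun x : ℝ × ℝ × ℝ × ℝ × ℝ => La x.1 x.2.1 x.2.2.1 x.2.2.2.1 x.2.2.2.2) := by
    unfold La
    fun_prop
  have h2 : Measurable (fun x : ℝ × ℝ × ℝ × ℝ × ℝ => Wd x.1 x.2.1 x.2.2.1 x.2.2.2.1 x.2.2.2.2) := by
    unfold Wd
    fun_prop
  have h3 : Measurable (fun x : ℝ × ℝ × ℝ × ℝ × ℝ => S1 x.1 x.2.1 x.2.2.1 x.2.2.2.1 x.2.2.2.2) := by
    unfold S1
    exact (measurable_fst.comp measurable_snd |>.mul h2.sqrt).div ((measurable_fst.const_mul 2).mul h1.sqrt)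
  have h4 : Measurable (fun x : ℝ × ℝ × ℝ × ℝ × ℝ => S2 x.1 x.2.1 x.2.2.1 x.2.2.2.1 x.2.2.2.2) := by
    unfold S2
    exact ((measurable_fst.comp (measurable_snd.comp measurable_snd)).mul h2.sqrt).div
      ((measurable_fst.sqrt.const_mul 2).mul h1)
  unfold VCV_F
  refine Measurable.ite ?_ ?_ measurable_const
  · exact (measurableSet_lt measurable_const h1).inter (measurableSet_lt measurable_const h2)
  · exact hG.comp (measurable_fst.prodMk (h1.prodMk (h2.prodMk (h3.prodMk h4))))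

theorem VCV (hVAF : VAF_stmt) (hVDW : VDW_stmt) (hVE2 : VE2_stmt) (hVID : VID_stmt) : VCV_stmt := by
  intro G hG
  have hF := VCV_F_meas G hG
  refine setLIntegral_congr_fun measurableSet_Ioi fun Z hZ => ?_
  have hZ : 0 < Z := hZ
  have hsZ : 0 < √Z := Real.sqrt_pos.2 hZ
  -- the function after the substitution of `g`
  set H : ℝ → ℝ → ℝ → ℝ → ℝ≥0∞ := fun l n k m =>
    VCV_F G Z n k m ((l * n ^ 2 - Z * k ^ 2) / m) * ENNReal.ofReal (1 / (n * k * |m|)) with hH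
  have hHm : Measurable (fun x : ℝ × ℝ × ℝ × ℝ => H x.1 x.2.1 x.2.2.1 x.2.2.2) := by
    rw [hH]
    refine Measurable.mul ?_ ?_
    · exact hF.comp (g := fun x : ℝ × ℝ × ℝ × ℝ × ℝ => VCV_F G x.1 x.2.1 x.2.2.1 x.2.2.2.1 x.2.2.2.2)
        (f := fun q : ℝ × ℝ × ℝ × ℝ => (Z, q.2.1, q.2.2.1, q.2.2.2,
          (q.1 * q.2.1 ^ 2 - Z * q.2.2.1 ^ 2) / q.2.2.2)) (by fun_prop)
    · fun_prop
  -- step A
  have stepA : ∫⁻ n in Ioi (0 : ℝ), ∫⁻ k in Ioi (0 : ℝ), ∫⁻ m, ∫⁻ g,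
      VCV_F G Z n k m g * ENNReal.ofReal (1 / (n ^ 3 * k)) =
      ∫⁻ n in Ioi (0 : ℝ), ∫⁻ k in Ioi (0 : ℝ), ∫⁻ m, ∫⁻ l in Ioi (0 : ℝ), H l n k m := by
    refine setLIntegral_congr_fun measurableSet_Ioi fun n hn => ?_
    refine setLIntegral_congr_fun measurableSet_Ioi fun k hk => ?_
    have hn : 0 < n := hn
    have hk : 0 < k := hk
    have hm0 : ∀ᵐ m : ℝ, m ≠ 0 := by
      have : (volume : Measure ℝ) {0} = 0 := measure_singleton 0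
      filter_upwards [compl_mem_ae_iff.2 this] with m hm
      exact hm
    refine lintegral_congr_ae ?_
    filter_upwards [hm0] with m hm
    have hmeas : Measurable (fun g => VCV_F G Z n k m g * ENNReal.ofReal (1 / (n ^ 3 * k))) := by
      refine Measurable.mul ?_ measurable_const
      exact hF.comp (g := fun x : ℝ × ℝ × ℝ × ℝ × ℝ => VCV_F G x.1 x.2.1 x.2.2.1 x.2.2.2.1 x.2.2.2.2)
        (f := fun q : ℝ => (Z, n, k, m, q)) (by fun_prop)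
    rw [hVAF.1 (n ^ 2 / m) (-(Z * k ^ 2 / m)) (div_ne_zero (by positivity) hm) _ hmeas,
      ← lintegral_const_mul' _ _ ENNReal.ofReal_ne_top, ← lintegral_indicator measurableSet_Ioi]
    refine lintegral_congr fun l => ?_
    have e1 : n ^ 2 / m * l + -(Z * k ^ 2 / m) = (l * n ^ 2 - Z * k ^ 2) / m := by
      field_simp
      ring
    rw [e1]
    by_cases hl : 0 < l
    · rw [Set.indicator_of_mem (show l ∈ Ioi (0 : ℝ) from hl), hH]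
      simp only
      rw [mul_left_comm, ← ENNReal.ofReal_mul (abs_nonneg _)]
      congr 2
      rw [abs_div, abs_of_pos (by positivity : 0 < n ^ 2)]
      have : |m| ≠ 0 := abs_ne_zero.2 hm
      field_simp
    · rw [Set.indicator_of_notMem (show l ∉ Ioi (0 : ℝ) from hl)]
      have e2 : La Z n k m ((l * n ^ 2 - Z * k ^ 2) / m) = l := by
        unfold La
        field_simp
        ring
      have e3 : VCV_F G Z n k m ((l * n ^ 2 - Z * k ^ 2) / m) = 0 := by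
        unfold VCV_F
        rw [e2, if_neg (fun h => hl h.1)]
      rw [e3, zero_mul, mul_zero]
  change ∫⁻ n in Ioi (0 : ℝ), ∫⁻ k in Ioi (0 : ℝ), ∫⁻ m, ∫⁻ g,
      VCV_F G Z n k m g * ENNReal.ofReal (1 / (n ^ 3 * k)) = _
  rw [stepA, VCV_rot4 H hHm]
  refine setLIntegral_congr_fun measurableSet_Ioi fun l hl => ?_
  have hl : 0 < l := hl
  have hlZ : 0 < √(l / Z) := Real.sqrt_pos.2 (div_pos hl hZ)
  -- step C
  have stepC : ∀ n ∈ Ioi (0 : ℝ), ∫⁻ k in Ioi (0 : ℝ), ∫⁻ m, H l n k m =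
      ∫⁻ U in Ioi (0 : ℝ), ∫⁻ v, (if 0 < Sg U v then
        G Z l (4 * Z ^ 2 * l * Sg U v / n ^ 2) (√(Sg U v)) (U * √(Sg U v)) else 0) *
          ENNReal.ofReal (1 / (n * U * |v|)) := by
    intro n hn
    have hn : 0 < n := hn
    have ha : 0 < n * √(l / Z) := by positivity
    have hb : 0 < n * √Z := by positivity
    have hm1 : Measurable (fun q : ℝ × ℝ => H l n q.1 q.2) :=
      hHm.comp (g := fun x : ℝ × ℝ × ℝ × ℝ => H x.1 x.2.1 x.2.2.1 x.2.2.2)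
        (f := fun q : ℝ × ℝ => (l, n, q.1, q.2)) (by fun_prop)
    rw [hVAF.2 (n * √(l / Z)) ha (fun k => ∫⁻ m, H l n k m) hm1.lintegral_prod_right',
      ← lintegral_const_mul' _ _ ENNReal.ofReal_ne_top]
    refine setLIntegral_congr_fun measurableSet_Ioi fun U hU => ?_
    have hU : 0 < U := hU
    have hm2 : Measurable (fun m => H l n (n * √(l / Z) * U) m) :=
      hm1.comp (g := fun q : ℝ × ℝ => H l n q.1 q.2) (f := fun m => (n * √(l / Z) * U, m)) (by fun_prop)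
    rw [hVAF.1 (n * √Z) 0 hb.ne' _ hm2, ← lintegral_const_mul' _ _ ENNReal.ofReal_ne_top,
      ← lintegral_const_mul' _ _ ENNReal.ofReal_ne_top]
    have hm0 : ∀ᵐ m : ℝ, m ≠ 0 := by
      have : (volume : Measure ℝ) {0} = 0 := measure_singleton 0
      filter_upwards [compl_mem_ae_iff.2 this] with m hm
      exact hm
    refine lintegral_congr_ae ?_
    filter_upwards [hm0] with v hv
    obtain ⟨i1, i2, i3⟩ := hVID Z n l U v hZ hn hl hU hv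
    rw [add_zero, hH]
    simp only
    have e1 : VCV_F G Z n (n * √(l / Z) * U) (n * √Z * v)
        ((l * n ^ 2 - Z * (n * √(l / Z) * U) ^ 2) / (n * √Z * v)) =
        if 0 < Sg U v then G Z l (4 * Z ^ 2 * l * Sg U v / n ^ 2) (√(Sg U v)) (U * √(Sg U v)) else 0 := by
      unfold VCV_F
      by_cases hS : 0 < Sg U v
      · rw [i1, i2, (i3 hS).1, (i3 hS).2, if_pos hS, if_pos ⟨hl, by positivity⟩]
      · rw [i1, i2, if_neg hS, if_neg]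
        rintro ⟨_, h⟩
        apply hS
        by_contra hS'
        have h5 : (4 * Z ^ 2 * l * Sg U v) / n ^ 2 ≤ 0 := by
          apply div_nonpos_of_nonpos_of_nonneg _ (by positivity)
          exact mul_nonpos_of_nonneg_of_nonpos (by positivity) (not_lt.1 hS')
        linarith
    rw [e1]
    rw [mul_left_comm (ENNReal.ofReal |n * √Z|), mul_left_comm (ENNReal.ofReal (n * √(l / Z))),
      ← ENNReal.ofReal_mul (abs_nonneg _), ← ENNReal.ofReal_mul ha.le]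
    congr 2
    rw [abs_of_pos hb, abs_mul, abs_of_pos hb]
    have : |v| ≠ 0 := abs_ne_zero.2 hv
    field_simp
  rw [setLIntegral_congr_fun measurableSet_Ioi stepC]
  -- step D
  have hSg : Measurable (fun x : ℝ × ℝ => Sg x.1 x.2) := by
    unfold Sg
    fun_prop
  have hKm : Measurable (fun x : ℝ × ℝ × ℝ => (if 0 < Sg x.2.1 x.2.2 then
        G Z l (4 * Z ^ 2 * l * Sg x.2.1 x.2.2 / x.1 ^ 2) (√(Sg x.2.1 x.2.2)) (x.2.1 * √(Sg x.2.1 x.2.2)) else 0) *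
          ENNReal.ofReal (1 / (x.1 * x.2.1 * |x.2.2|))) := by
    have h1 : Measurable (fun x : ℝ × ℝ × ℝ => Sg x.2.1 x.2.2) :=
      hSg.comp (g := fun x : ℝ × ℝ => Sg x.1 x.2) (f := fun x : ℝ × ℝ × ℝ => (x.2.1, x.2.2)) (by fun_prop)
    refine Measurable.mul (Measurable.ite (measurableSet_lt measurable_const h1) ?_ measurable_const) (by fun_prop)
    refine hG.comp (measurable_const.prodMk (measurable_const.prodMk (Measurable.prodMk ?_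
      (h1.sqrt.prodMk (Measurable.mul (by fun_prop) h1.sqrt)))))
    exact (h1.const_mul _).div (by fun_prop)
  rw [VCV_rot3 (fun n U v => (if 0 < Sg U v then
        G Z l (4 * Z ^ 2 * l * Sg U v / n ^ 2) (√(Sg U v)) (U * √(Sg U v)) else 0) *
          ENNReal.ofReal (1 / (n * U * |v|))) hKm]
  set Ψ : ℝ → ℝ → ℝ≥0∞ := fun s₁ s₂ => ∫⁻ w in Ioi (0 : ℝ), G Z l w s₁ s₂ * ENNReal.ofReal (1 / (2 * w)) with hΨ
  have hGw : Measurable (fun q : (ℝ × ℝ) × ℝ => G Z l q.2 q.1.1 q.1.2 * ENNReal.ofReal (1 / (2 * q.2))) := by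
    refine Measurable.mul ?_ (by fun_prop)
    exact hG.comp (g := fun x : ℝ × ℝ × ℝ × ℝ × ℝ => G x.1 x.2.1 x.2.2.1 x.2.2.2.1 x.2.2.2.2)
        (f := fun q : (ℝ × ℝ) × ℝ => (Z, l, q.2, q.1.1, q.1.2)) (by fun_prop)
  have hΨm : Measurable (fun x : ℝ × ℝ => Ψ x.1 x.2) := hGw.lintegral_prod_right'
  have stepD : ∫⁻ U in Ioi (0 : ℝ), ∫⁻ v, ∫⁻ n in Ioi (0 : ℝ), (if 0 < Sg U v then
        G Z l (4 * Z ^ 2 * l * Sg U v / n ^ 2) (√(Sg U v)) (U * √(Sg U v)) else 0) *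
          ENNReal.ofReal (1 / (n * U * |v|)) =
      ∫⁻ U in Ioi (0 : ℝ), ∫⁻ v, (if 0 < Sg U v then Ψ (√(Sg U v)) (U * √(Sg U v)) else 0) *
      ENNReal.ofReal (1 / (U * |v|)) := by
    refine setLIntegral_congr_fun measurableSet_Ioi fun U hU => ?_
    have hU : 0 < U := hU
    refine lintegral_congr fun v => ?_
    by_cases hS : 0 < Sg U v
    · simp only [if_pos hS]
      have hc : 0 < 4 * Z ^ 2 * l * Sg U v := by positivity
      have hm3 : Measurable (fun w => G Z l w (√(Sg U v)) (U * √(Sg U v))) :=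
        hG.comp (g := fun x : ℝ × ℝ × ℝ × ℝ × ℝ => G x.1 x.2.1 x.2.2.1 x.2.2.2.1 x.2.2.2.2)
          (f := fun q : ℝ => (Z, l, q, √(Sg U v), U * √(Sg U v))) (by fun_prop)
      have hd := hVDW (4 * Z ^ 2 * l * Sg U v) hc (fun w => G Z l w (√(Sg U v)) (U * √(Sg U v))) hm3
      rw [hΨ]
      simp only
      rw [← hd, ← lintegral_mul_const' _ _ ENNReal.ofReal_ne_top]
      refine setLIntegral_congr_fun measurableSet_Ioi fun n hn => ?_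
      have hn : 0 < n := hn
      have e5 : ENNReal.ofReal (1 / (n * U * |v|)) = ENNReal.ofReal (1 / n) * ENNReal.ofReal (1 / (U * |v|)) := by
        rw [← ENNReal.ofReal_mul (by positivity), div_mul_div_comm, mul_one, mul_assoc]
      rw [e5, ← mul_assoc]
    · simp only [if_neg hS, zero_mul, lintegral_zero]
  rw [stepD, hVE2 Ψ hΨm]
  -- step E
  have hlast : Measurable (fun x : ℝ × ℝ × ℝ => G Z l x.1 (Real.sin x.2.1) (Real.sin x.2.2) *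
      ENNReal.ofReal (1 / (2 * x.1))) := by
    refine Measurable.mul ?_ (by fun_prop)
    exact hG.comp (g := fun x : ℝ × ℝ × ℝ × ℝ × ℝ => G x.1 x.2.1 x.2.2.1 x.2.2.2.1 x.2.2.2.2)
        (f := fun x : ℝ × ℝ × ℝ => (Z, l, x.1, Real.sin x.2.1, Real.sin x.2.2)) (by fun_prop)
  exact (VCV_rot3 (fun w φ ψ => G Z l w (Real.sin φ) (Real.sin ψ) * ENNReal.ofReal (1 / (2 * w))) hlast
    (volume.restrict (Ioi 0)) (volume.restrict (Ioo 0 Real.pi)) (volume.restrict (Ioo 0 Real.pi))).symm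

end Pool.Agent.T5V
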